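import Mathlib
import Pool.Agent.W163.CF.Defs2

/-!
# Digraphs without closed `t`-walks (`t ≥ 6` even)
-/

set_option autoImplicit false

namespace Pool.Agent.W52.CF

open Finset Pool.Agent.W163.CF

theorem wk_app {V : Type} {D : V → V → Prop} : ∀ (m n : ℕ) (x y z : V), Wk D m x y → Wk D n y z →
    Wk D (m + n) x z := by
  intro m
  induction m with
  | zero =>
    intro n x y z h1 h2
    have h3 : x = y := h1
    subst h3
    simpa using h2
  | succ m ih =>
    intro n x y z h1 h2
    obtain ⟨u, hu, h1⟩ := h1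
    have h3 : m + 1 + n = (m + n) + 1 := by omega
    rw [h3]
    exact ⟨u, hu, ih n u y z h1 h2⟩

theorem wk_one {V : Type} {D : V → V → Prop} {x y : V} (h : D x y) : Wk D 1 x y := ⟨y, h, rfl⟩

theorem wk_snoc {V : Type} {D : V → V → Prop} {n : ℕ} {x y z : V} (h : Wk D n x y) (h' : D y z) :
    Wk D (n + 1) x z := wk_app n 1 x y z h (wk_one h')

theorem wk_rev {V : Type} {D : V → V → Prop} : ∀ (n : ℕ) (x y : V), Wk D n x y →
    Wk (fun a b => D b a) n y x := by
  intro n
  induction n with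
  | zero =>
    intro x y h
    exact (show y = x from (show x = y from h).symm)
  | succ n ih =>
    intro x y h
    obtain ⟨u, hu, h1⟩ := h
    exact wk_snoc (ih u y h1) hu

theorem wk_last {V : Type} {D : V → V → Prop} : ∀ (n : ℕ) (x y : V), Wk D (n + 1) x y →
    ∃ z, Wk D n x z ∧ D z y := by
  intro n
  induction n with
  | zero =>
    intro x y h
    obtain ⟨u, hu, h1⟩ := h
    have h3 : u = y := h1
    subst h3
    exact ⟨x, rfl, hu⟩
  | succ n ih =>
    intro x y h
    obtain ⟨u, hu, h1⟩ := h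
    obtain ⟨z, hz, hzy⟩ := ih u y h1
    exact ⟨z, ⟨u, hu, hz⟩, hzy⟩

theorem wk_fun {V : Type} {D : V → V → Prop} : ∀ (n : ℕ) (x y : V), Wk D n x y →
    ∃ f : ℕ → V, f 0 = x ∧ f n = y ∧ ∀ i, i < n → D (f i) (f (i + 1)) := by
  intro n
  induction n with
  | zero =>
    intro x y h
    have h3 : x = y := h
    subst h3
    exact ⟨fun _ => x, rfl, rfl, fun i hi => absurd hi (Nat.not_lt_zero i)⟩
  | succ n ih =>
    intro x y h
    obtain ⟨u, hu, h1⟩ := h
    obtain ⟨f, h0, hn, hs⟩ := ih u y h1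
    refine ⟨fun i => match i with
      | 0 => x
      | j + 1 => f j, rfl, hn, ?_⟩
    intro i hi
    cases i with
    | zero =>
      show D x (f 0)
      rw [h0]
      exact hu
    | succ j =>
      show D (f j) (f (j + 1))
      exact hs j (by omega)

/-- a closed walk as a periodic sequence -/
theorem wk_per {V : Type} {D : V → V → Prop} (c : ℕ) (hc : 1 ≤ c) (x : V) (h : Wk D c x x) :
    ∃ f : ℕ → V, (∀ i, f (i + c) = f i) ∧ ∀ i, D (f i) (f (i + 1)) := by
  obtain ⟨f, h0, hn, hs⟩ := wk_fun c x x h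
  refine ⟨fun i => f (i % c), fun i => ?_, fun i => ?_⟩
  · show f ((i + c) % c) = f (i % c)
    rw [Nat.add_mod_right]
  · show D (f (i % c)) (f ((i + 1) % c))
    have h1 : i % c < c := Nat.mod_lt _ hc
    by_cases h2 : i % c + 1 = c
    · have h3 : (i + 1) % c = 0 := by
        rw [Nat.add_mod]
        by_cases hc1 : c = 1
        · subst hc1
          exact Nat.mod_one _
        · rw [Nat.mod_eq_of_lt (show 1 < c by omega), h2, Nat.mod_self]
      rw [h3, h0, ← hn]
      have h4 := hs (i % c) h1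
      rw [h2] at h4
      exact h4
    · have h3 : (i + 1) % c = i % c + 1 := by
        rw [Nat.add_mod]
        by_cases hc1 : c = 1
        · omega
        · rw [Nat.mod_eq_of_lt (show 1 < c by omega), Nat.mod_eq_of_lt (show i % c + 1 < c by omega)]
      rw [h3]
      exact hs _ h1

theorem wk_run {V : Type} {D : V → V → Prop} (f : ℕ → V) (hs : ∀ i, D (f i) (f (i + 1))) (k i : ℕ) :
    Wk D k (f i) (f (i + k)) := by
  induction k with
  | zero => exact rfl
  | succ k ih => exact wk_snoc ih (hs (i + k))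

theorem per_mul {V : Type} {f : ℕ → V} {c : ℕ} (hp : ∀ i, f (i + c) = f i) (i m : ℕ) :
    f (i + m * c) = f i := by
  induction m with
  | zero => simp
  | succ m ih =>
    have h1 : i + (m + 1) * c = (i + m * c) + c := by ring
    rw [h1, hp, ih]

theorem per_mod {V : Type} {f : ℕ → V} {c : ℕ} (hp : ∀ i, f (i + c) = f i) (i : ℕ) :
    f (i % c) = f i := by
  conv_rhs => rw [← Nat.mod_add_div i c, mul_comm]
  rw [per_mul hp]

theorem dig {V : Type} {D : V → V → Prop} {t : ℕ} (ht : Even t) (hno : ∀ x, ¬ Wk D t x x) (a b : V)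
    (h1 : D a b) (h2 : D b a) : False := by
  obtain ⟨k, hk⟩ := ht
  apply hno a
  rw [hk]
  clear hk hno
  induction k with
  | zero => exact rfl
  | succ k ih =>
    have h3 : k + 1 + (k + 1) = (k + k) + 1 + 1 := by ring
    rw [h3]
    exact wk_snoc (wk_snoc ih h1) h2

/-- a cyclic 0-1 sequence which is not all 1 has at most `c - 1` ones -/
theorem cyc1 (c : ℕ) (hc : 1 ≤ c) (q : ℕ → Prop) (hq : ∀ i, q (i % c) ↔ q i) (h : ∃ i, ¬ q i) :
    ∑ i ∈ range c, ind (q i) ≤ (c : ℝ) - 1 := by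
  obtain ⟨i, hi⟩ := h
  have h1 : i % c < c := Nat.mod_lt _ hc
  have h2 : ¬ q (i % c) := fun h => hi ((hq i).1 h)
  have h3 : ∑ j ∈ range c, ind (q j) ≤ ∑ j ∈ range c, (if j = i % c then (0 : ℝ) else 1) := by
    apply Finset.sum_le_sum
    intro j _
    split_ifs with hj
    · rw [hj, ind_f h2]
    · exact ind_le _
  have h4 : ∑ j ∈ range c, (if j = i % c then (0 : ℝ) else 1) = (c : ℝ) - 1 := by
    have h5 : ∀ j ∈ range c, (if j = i % c then (0 : ℝ) else 1) = 1 - (if j = i % c then (1 : ℝ) else 0) := by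
      intro j _
      split_ifs <;> norm_num
    rw [Finset.sum_congr rfl h5, Finset.sum_sub_distrib, Finset.sum_ite_eq' (range c) (i % c) (fun _ => (1 : ℝ)),
      if_pos (Finset.mem_range.2 h1)]
    simp
  linarith

/-- the counting lemma for one vertex and the cycle -/
theorem cyc2 (c : ℕ) (hc : 1 ≤ c) (p q : ℕ → Prop) (hp : ∀ i, p (i % c) ↔ p i) (hq : ∀ i, q (i % c) ↔ q i)
    (h0 : ∀ i, p i → ¬ q i) (h1 : ∀ i, p i → ¬ q (i + 1)) :
    ∑ i ∈ range c, (ind (p i) + ind (q i)) ≤ (c : ℝ) - 1 + ind (∀ i, p i) + ind (∀ i, q i) := by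
  have hpq : ∀ i, ind (p i) + ind (q i) = ind (p i ∨ q i) := by
    intro i
    by_cases h2 : p i
    · rw [ind_t h2, ind_f (h0 i h2), ind_t (p := p i ∨ q i) (Or.inl h2)]; norm_num
    · by_cases h3 : q i
      · rw [ind_f h2, ind_t h3, ind_t (p := p i ∨ q i) (Or.inr h3)]; norm_num
      · rw [ind_f h2, ind_f h3, ind_f (p := p i ∨ q i) (fun h => h.elim h2 h3)]; norm_num
  simp_rw [hpq]
  have htriv : ∑ i ∈ range c, ind (p i ∨ q i) ≤ (c : ℝ) := by
    have h2 : ∑ i ∈ range c, ind (p i ∨ q i) ≤ ∑ i ∈ range c, (1 : ℝ) :=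
      Finset.sum_le_sum fun i _ => ind_le _
    simpa using h2
  by_cases h2 : ∀ i, p i
  · rw [ind_t h2]
    have := ind_nn (∀ i, q i)
    linarith
  · by_cases h3 : ∀ i, q i
    · rw [ind_t h3]
      have := ind_nn (∀ i, p i)
      linarith
    · rw [ind_f h2, ind_f h3, add_zero, add_zero]
      apply cyc1 c hc (fun i => p i ∨ q i) (fun i => or_congr (hp i) (hq i))
      by_contra hcon
      push Not at hcon
      obtain ⟨j, hj⟩ := not_forall.1 h3
      have h4 : ∀ k, p (j + k) := by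
        intro k
        induction k with
        | zero => exact (hcon j).resolve_right hj
        | succ k ih => exact (hcon (j + (k + 1))).resolve_right (h1 _ ih)
      apply h2
      intro i
      have h5 := h4 (i + (c - 1) * j)
      have h6 : j + (i + (c - 1) * j) = i + j * c := by
        obtain ⟨d, rfl⟩ : ∃ d, c = d + 1 := ⟨c - 1, by omega⟩
        simp only [Nat.add_sub_cancel]
        ring
      rw [h6] at h5
      have h7 := (hp (i + j * c)).2 h5
      rw [Nat.add_mul_mod_self_right] at h7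
      exact (hp i).1 h7

variable {V : Type} [Fintype V]

theorem card_sum : ∑ _v : V, (1 : ℝ) = (Fintype.card V : ℝ) := by simp

/-- case (i), one side -/
theorem sideI (D : V → V → Prop) (s : ℕ) (ε : ℝ) (hε : 0 ≤ ε)
    (hd : ∀ a b, D a b → D b a → False)
    (h2 : ∀ x, ¬ Wk D (s + 2) x x) (h3 : ∀ x, ¬ Wk D (s + 3) x x)
    (hw : ∀ y x, Wk D (s + 1) y x →
      (Fintype.card V : ℝ) - ε ≤ cnt (fun v => D x v) + cnt (fun v => D v y))
    (y x : V) (hyx : Wk D s y x) : cnt (fun v => D x v) ≤ 2 * ε := by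
  by_cases hA : ∃ v, D x v
  · obtain ⟨w, hw1, hw2⟩ := few_out D hd (fun v => D x v) hA
    have hyw : Wk D (s + 1) y w := wk_snoc hyx hw1
    have e1 := hw y w hyw
    have hpt : ∑ v, (ind (D x v) + ind (D w v) + ind (D v y)) ≤
        ∑ v, (1 + ind (D x v ∧ D w v)) := by
      apply Finset.sum_le_sum
      intro v _
      by_cases a3 : D v y
      · have a1 : ¬ D x v := fun h => h2 y (wk_snoc (wk_snoc hyx h) a3)
        have a2 : ¬ D w v := fun h => h3 y (wk_snoc (wk_snoc hyw h) a3)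
        simp [ind, a1, a2, a3]
      · by_cases a1 : D x v <;> by_cases a2 : D w v <;> simp [ind, a1, a2, a3]
    simp only [Finset.sum_add_distrib] at hpt
    rw [card_sum] at hpt
    unfold cnt at *
    linarith
  · rw [cnt_zero (fun v h => hA ⟨v, h⟩)]
    linarith

/-- case (i) -/
theorem caseI (D : V → V → Prop) (s : ℕ) (ε : ℝ) (hε : 0 ≤ ε)
    (hd : ∀ a b, D a b → D b a → False)
    (h2 : ∀ x, ¬ Wk D (s + 2) x x) (h3 : ∀ x, ¬ Wk D (s + 3) x x)
    (hw : ∀ y x, Wk D (s + 1) y x →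
      (Fintype.card V : ℝ) - ε ≤ cnt (fun v => D x v) + cnt (fun v => D v y))
    (hex : ∃ y x, Wk D (s + 1) y x) : (Fintype.card V : ℝ) ≤ 5 * ε := by
  obtain ⟨y, x, hyx⟩ := hex
  have e1 := hw y x hyx
  obtain ⟨z, hz, hyz⟩ := hyx
  have e2 := sideI D s ε hε hd h2 h3 hw z x hyz
  obtain ⟨z', hz', hzx⟩ := wk_last s y x ⟨z, hz, hyz⟩
  have e3 := sideI (fun a b => D b a) s ε hε (fun a b h1 h2 => hd a b h2 h1)
    (fun x h => h2 x (wk_rev _ _ _ h)) (fun x h => h3 x (wk_rev _ _ _ h))
    (fun a b h => by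
      have := hw b a (wk_rev _ _ _ h)
      linarith) z' y (wk_rev _ _ _ hz')
  linarith

/-- case (ii.1), one side -/
theorem sideE (D : V → V → Prop) (r : ℕ) (hd : ∀ a b, D a b → D b a → False)
    (h0 : ∀ x, ¬ Wk D (r + 3) x x) (p : V) (hE : ∃ w, ∀ k, k ≤ r → Wk D (k + 1) p w) :
    ∃ w, (∀ k, k ≤ r → Wk D (k + 1) p w) ∧
      2 * cnt (fun v => (D p v ∨ D v p) ∧ D w v) ≤ cnt (fun v => D p v) := by
  obtain ⟨w, hw1, hw2⟩ := few_out D hd (fun w => ∀ k, k ≤ r → Wk D (k + 1) p w) hE
  refine ⟨w, hw1, ?_⟩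
  have h5 : cnt (fun v => (D p v ∨ D v p) ∧ D w v) ≤
      cnt (fun v => (∀ k, k ≤ r → Wk D (k + 1) p v) ∧ D w v) := by
    apply cnt_mono
    rintro v ⟨hv | hv, hwv⟩
    · refine ⟨fun k hk => ?_, hwv⟩
      cases k with
      | zero => exact wk_one hv
      | succ k => exact wk_snoc (hw1 k (by omega)) hwv
    · exact (h0 p (wk_snoc (wk_snoc (hw1 r le_rfl) hwv) hv)).elim
  have h6 : cnt (fun w => ∀ k, k ≤ r → Wk D (k + 1) p w) ≤ cnt (fun v => D p v) := by
    apply cnt_mono
    intro v hv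
    obtain ⟨z, hz, hzv⟩ := hv 0 (Nat.zero_le _)
    have h7 : z = v := hzv
    subst h7
    exact hz
  linarith

/-- case (ii.1) -/
theorem fullE (D : V → V → Prop) (r : ℕ) (ε : ℝ) (hd : ∀ a b, D a b → D b a → False)
    (hr : 1 ≤ r)
    (h0 : ∀ x, ¬ Wk D (r + 3) x x)
    (hw : ∀ y x, Wk D (r + 1) y x →
      (Fintype.card V : ℝ) - ε ≤ cnt (fun v => D x v) + cnt (fun v => D v y))
    (p : V) (hE : ∃ w, ∀ k, k ≤ r → Wk D (k + 1) p w) (hE' : ∃ w, ∀ k, k ≤ r → Wk D (k + 1) w p) :
    cnt (fun v => D p v) + cnt (fun v => D v p) ≤ 2 * ε := by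
  obtain ⟨w, hw1, hw2⟩ := sideE D r hd h0 p hE
  obtain ⟨y, hy1, hy2⟩ := sideE (fun a b => D b a) r (fun a b h1 h2 => hd a b h2 h1)
    (fun x h => h0 x (wk_rev _ _ _ h)) p (by
      obtain ⟨u, hu⟩ := hE'
      exact ⟨u, fun k hk => wk_rev _ _ _ (hu k hk)⟩)
  have hyp : D y p := by
    obtain ⟨z, hz, hzv⟩ := hy1 0 (Nat.zero_le _)
    have h7 : z = y := hzv
    subst h7
    exact hz
  have hyw : Wk D (r + 1) y w := by
    have h1 := hw1 (r - 1) (by omega)
    have h2 : r - 1 + 1 = r := by omega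
    rw [h2] at h1
    exact ⟨p, hyp, h1⟩
  have h3 := hw y w hyw
  have hpt : ∑ v, (ind (D p v) + ind (D v p)) ≤
      ∑ v, (ind ((D p v ∨ D v p) ∧ D w v) + ind ((D v p ∨ D p v) ∧ D v y)
        + (1 - ind (D w v) - ind (D v y))) := by
    apply Finset.sum_le_sum
    intro v _
    have hpp : ¬ (D p v ∧ D v p) := fun h => hd _ _ h.1 h.2
    have hwy : ¬ (D w v ∧ D v y) := fun h => h0 y (wk_snoc (wk_snoc hyw h.1) h.2)
    by_cases h5 : D w v <;> by_cases h6 : D v y <;> by_cases h7 : D p v <;> by_cases h8 : D v p <;>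
    first
      | exact (hpp ⟨h7, h8⟩).elim
      | exact (hwy ⟨h5, h6⟩).elim
      | simp [ind, h5, h6, h7, h8]
  simp only [Finset.sum_add_distrib, Finset.sum_sub_distrib] at hpt
  rw [card_sum] at hpt
  unfold cnt at *
  linarith

/-- case (ii.2) -/
theorem domU (D : V → V → Prop) (c : ℕ) (hc : 3 ≤ c) (ε : ℝ) (hd : ∀ a b, D a b → D b a → False)
    (h0 : ∀ x, ¬ Wk D (c + 1) x x)
    (hw : ∀ y x, Wk D (c - 1) y x →
      (Fintype.card V : ℝ) - ε ≤ cnt (fun v => D x v) + cnt (fun v => D v y))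
    (f : ℕ → V) (hp : ∀ i, f (i + c) = f i) (hs : ∀ i, D (f i) (f (i + 1)))
    (hU : ¬ ∃ u, ∀ i, D u (f i)) (hW : ∃ w, ∀ i, D (f i) w) :
    (Fintype.card V : ℝ) ≤ c * ε := by
  by_contra hcon
  push Not at hcon
  have hc0 : (3 : ℝ) ≤ (c : ℝ) := by exact_mod_cast hc
  obtain ⟨S, hS⟩ : ∃ S : V → Prop, S = fun v => ∀ i, Wk D (c - 1) (f i) v := ⟨_, rfl⟩
  obtain ⟨P0, hP0⟩ : ∃ P0 : V → Prop, P0 = fun u => ∀ i, ¬ D u (f i) := ⟨_, rfl⟩
  have hSP : ∀ v, S v → P0 v := by
    intro v hv
    rw [hS] at hv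
    rw [hP0]
    intro i hi
    have h1 := wk_snoc (wk_snoc (hv (i + 1)) hi) (hs i)
    have h2 : c - 1 + 1 + 1 = c + 1 := by omega
    rw [h2] at h1
    exact h0 _ h1
  have hNS : ∀ v u, S v → D v u → P0 u := by
    intro v u hv hvu
    rw [hS] at hv
    rw [hP0]
    intro i hi
    have h1 := wk_snoc (wk_snoc (hv i) hvu) hi
    have h2 : c - 1 + 1 + 1 = c + 1 := by omega
    rw [h2] at h1
    exact h0 _ h1
  have hsumQ : ∑ i ∈ range c, cnt (fun u => D u (f i)) ≤
      ((c : ℝ) - 1) * ((Fintype.card V : ℝ) - cnt P0) := by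
    have h1 : ∑ i ∈ range c, cnt (fun u => D u (f i)) = ∑ u, ∑ i ∈ range c, ind (D u (f i)) := by
      unfold cnt
      exact Finset.sum_comm
    have h2 : ((c : ℝ) - 1) * ((Fintype.card V : ℝ) - cnt P0) = ∑ u, ((c : ℝ) - 1) * (1 - ind (P0 u)) := by
      rw [← Finset.mul_sum, Finset.sum_sub_distrib, card_sum]
      rfl
    rw [h1, h2]
    apply Finset.sum_le_sum
    intro u _
    by_cases hu : P0 u
    · rw [ind_t hu, sub_self, mul_zero]
      rw [hP0] at hu
      apply le_of_eq
      apply Finset.sum_eq_zero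
      intro i _
      exact ind_f (hu i)
    · rw [ind_f hu, sub_zero, mul_one]
      apply cyc1 c (by omega) (fun i => D u (f i)) (fun i => by rw [per_mod hp])
      by_contra hcon2
      push Not at hcon2
      exact hU ⟨u, hcon2⟩
  have hdeg : ∀ v, S v → ((c : ℝ) - 1) * cnt P0 < c * cnt (fun u => D v u) := by
    intro v hv
    have hv' := hv
    rw [hS] at hv'
    have h1 : ∑ i ∈ range c, ((Fintype.card V : ℝ) - ε) ≤
        ∑ i ∈ range c, (cnt (fun u => D v u) + cnt (fun u => D u (f i))) :=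
      Finset.sum_le_sum fun i _ => hw (f i) v (hv' i)
    rw [Finset.sum_add_distrib, Finset.sum_const, Finset.sum_const, Finset.card_range, nsmul_eq_mul,
      nsmul_eq_mul] at h1
    nlinarith
  obtain ⟨w, hw1⟩ := hW
  have hwS : S w := by
    rw [hS]
    intro i
    have h1 := wk_snoc (wk_run f hs (c - 2) i) (hw1 (i + (c - 2)))
    have h2 : c - 2 + 1 = c - 1 := by omega
    rw [h2] at h1
    exact h1
  have hwN : cnt (fun u => D w u) ≤ cnt S := by
    apply cnt_mono
    intro u hu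
    rw [hS]
    intro i
    have h1 := wk_snoc (wk_snoc (wk_run f hs (c - 3) i) (hw1 (i + (c - 3)))) hu
    have h2 : c - 3 + 1 + 1 = c - 1 := by omega
    rw [h2] at h1
    exact h1
  have hw3 := hdeg w hwS
  obtain ⟨v, hv, hv2⟩ := few_out D hd S ⟨w, hwS⟩
  have hv3 := hdeg v hv
  have hpt : ∑ u, ind (D v u) ≤
      ∑ u, (ind (P0 u) - ind (S u) + ind (S u ∧ D v u)) := by
    apply Finset.sum_le_sum
    intro u _
    by_cases c1 : S u
    · have c2 := hSP u c1
      by_cases c3 : D v u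
      · simp [ind, c1, c2, c3]
      · simp [ind, c1, c2, c3]
    · by_cases c3 : D v u
      · have c2 := hNS v u hv c3
        simp [ind, c1, c2, c3]
      · by_cases c2 : P0 u
        · simp [ind, c1, c2, c3]
        · simp [ind, c1, c2, c3]
  simp only [Finset.sum_add_distrib, Finset.sum_sub_distrib] at hpt
  have e1 : cnt (fun u => D v u) ≤ cnt P0 - cnt S + cnt (fun u => S u ∧ D v u) := hpt
  have e2 : (c : ℝ) * cnt (fun u => D v u) ≤ c * (cnt P0 - cnt S / 2) :=
    mul_le_mul_of_nonneg_left (by linarith) (by linarith)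
  have e3 : (c : ℝ) * cnt (fun u => D w u) ≤ c * cnt S := mul_le_mul_of_nonneg_left hwN (by linarith)
  have e4 := cnt_nonneg P0
  nlinarith

/-- case (ii) -/
theorem caseII (D : V → V → Prop) (c : ℕ) (hc : 5 ≤ c) (ε : ℝ) (hε : 0 ≤ ε)
    (hd : ∀ a b, D a b → D b a → False)
    (h0 : ∀ x, ¬ Wk D (c + 1) x x)
    (hw : ∀ y x, Wk D (c - 1) y x →
      (Fintype.card V : ℝ) - ε ≤ cnt (fun v => D x v) + cnt (fun v => D v y))
    (f : ℕ → V) (hp : ∀ i, f (i + c) = f i) (hs : ∀ i, D (f i) (f (i + 1))) :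
    (Fintype.card V : ℝ) ≤ c * ε := by
  by_contra hcon
  push Not at hcon
  have hc0 : (5 : ℝ) ≤ (c : ℝ) := by exact_mod_cast hc
  -- walks along the cycle
  have hcyc : ∀ i, Wk D (c - 1) (f (i + 1)) (f i) := by
    intro i
    have h1 := wk_run f hs (c - 1) (i + 1)
    have h2 : i + 1 + (c - 1) = i + c := by omega
    rw [h2, hp] at h1
    exact h1
  have hsum1 : (c : ℝ) * ((Fintype.card V : ℝ) - ε) ≤
      ∑ i ∈ range c, (cnt (fun v => D (f i) v) + cnt (fun v => D v (f i))) := by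
    have h1 : ∑ i ∈ range c, ((Fintype.card V : ℝ) - ε) ≤
        ∑ i ∈ range c, (cnt (fun u => D (f i) u) + cnt (fun u => D u (f (i + 1)))) :=
      Finset.sum_le_sum fun i _ => hw (f (i + 1)) (f i) (hcyc i)
    rw [Finset.sum_add_distrib, Finset.sum_const, Finset.card_range, nsmul_eq_mul] at h1
    have h2 : ∑ i ∈ range c, cnt (fun u => D u (f (i + 1))) = ∑ i ∈ range c, cnt (fun u => D u (f i)) := by
      have h3 := Finset.sum_range_succ' (fun i => cnt (fun u => D u (f i))) c
      have h4 := Finset.sum_range_succ (fun i => cnt (fun u => D u (f i))) c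
      rw [h4] at h3
      have h5 : f c = f 0 := by
        have := hp 0
        rwa [zero_add] at this
      rw [h5] at h3
      linarith
    rw [h2, ← Finset.sum_add_distrib] at h1
    exact h1
  have hsum2 : ∑ i ∈ range c, (cnt (fun v => D (f i) v) + cnt (fun v => D v (f i))) ≤
      ((c : ℝ) - 1) * (Fintype.card V : ℝ) + cnt (fun v => ∀ i, D (f i) v) + cnt (fun v => ∀ i, D v (f i)) := by
    have h1 : ∑ i ∈ range c, (cnt (fun v => D (f i) v) + cnt (fun v => D v (f i))) =
        ∑ v, ∑ i ∈ range c, (ind (D (f i) v) + ind (D v (f i))) := by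
      rw [Finset.sum_comm]
      apply Finset.sum_congr rfl
      intro i _
      rw [Finset.sum_add_distrib]
      rfl
    have h2 : ((c : ℝ) - 1) * (Fintype.card V : ℝ) + cnt (fun v => ∀ i, D (f i) v) +
        cnt (fun v => ∀ i, D v (f i)) =
        ∑ v, ((c : ℝ) - 1 + ind (∀ i, D (f i) v) + ind (∀ i, D v (f i))) := by
      rw [Finset.sum_add_distrib, Finset.sum_add_distrib, Finset.sum_const, nsmul_eq_mul, Finset.card_univ]
      unfold cnt
      ring
    rw [h1, h2]
    apply Finset.sum_le_sum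
    intro v _
    apply cyc2 c (by omega) (fun i => D (f i) v) (fun i => D v (f i)) (fun i => by rw [per_mod hp])
      (fun i => by rw [per_mod hp])
    · intro i h3 h4
      exact hd _ _ h3 h4
    · intro i h3 h4
      have h5 : Wk D (1 + (c - 1)) v (f i) := wk_app 1 (c - 1) v (f (i + 1)) (f i) (wk_one h4) (hcyc i)
      have h6 := wk_snoc h5 h3
      have h7 : 1 + (c - 1) + 1 = c + 1 := by omega
      rw [h7] at h6
      exact h0 _ h6
  have hUW : 0 < cnt (fun v => ∀ i, D (f i) v) + cnt (fun v => ∀ i, D v (f i)) := by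
    nlinarith
  by_cases hU : ∃ u, ∀ i, D u (f i)
  · by_cases hW : ∃ w, ∀ i, D (f i) w
    · obtain ⟨u, hu⟩ := hU
      obtain ⟨w, hw1⟩ := hW
      have hk : ∀ i, cnt (fun v => D (f i) v) + cnt (fun v => D v (f i)) ≤ 2 * ε := by
        intro i
        have e1 : c - 2 + 3 = c + 1 := by omega
        have e2 : c - 2 + 1 = c - 1 := by omega
        apply fullE D (c - 2) ε hd (by omega) (by rw [e1]; exact h0) (by rw [e2]; exact hw) (f i)
        · exact ⟨w, fun k _ => wk_snoc (wk_run f hs k i) (hw1 (i + k))⟩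
        · refine ⟨u, fun k _ => ?_⟩
          -- start at `u`, jump to `f (i + m)` with `i + m + k ≡ i`
          have h1 : Wk D k (f (i + (c - 1) * k)) (f (i + (c - 1) * k + k)) := wk_run f hs k _
          have h2 : i + (c - 1) * k + k = i + k * c := by
            obtain ⟨d, rfl⟩ : ∃ d, c = d + 1 := ⟨c - 1, by omega⟩
            simp only [Nat.add_sub_cancel]
            ring
          rw [h2, per_mul hp] at h1
          exact ⟨_, hu _, h1⟩
      have h1 : ∑ i ∈ range c, (cnt (fun v => D (f i) v) + cnt (fun v => D v (f i))) ≤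
          ∑ i ∈ range c, (2 * ε) := Finset.sum_le_sum fun i _ => hk i
      rw [Finset.sum_const, Finset.card_range, nsmul_eq_mul] at h1
      have h2 : (c : ℝ) * ((Fintype.card V : ℝ) - ε) ≤ c * (2 * ε) := by linarith
      have h3 : (Fintype.card V : ℝ) - ε ≤ 2 * ε := le_of_mul_le_mul_left h2 (by linarith)
      nlinarith
    · -- reverse the relation
      have h1 := domU (fun a b => D b a) c (by omega) ε (fun a b h1 h2 => hd a b h2 h1)
        (fun x h => h0 x (wk_rev _ _ _ h))
        (fun a b h => by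
          have := hw b a (wk_rev _ _ _ h)
          linarith)
        (fun i => f ((c - 1) * i)) (fun i => by
          show f ((c - 1) * (i + c)) = f ((c - 1) * i)
          rw [mul_add, per_mul hp]) (fun i => by
          show D (f ((c - 1) * (i + 1))) (f ((c - 1) * i))
          have h2 : f ((c - 1) * i) = f ((c - 1) * i + c) := (hp _).symm
          have h3 : (c - 1) * i + c = (c - 1) * (i + 1) + 1 := by
            obtain ⟨d, rfl⟩ : ∃ d, c = d + 1 := ⟨c - 1, by omega⟩
            simp only [Nat.add_sub_cancel]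
            ring
          rw [h2, h3]
          exact hs _) (by
          rintro ⟨v, hv⟩
          apply hW
          refine ⟨v, fun i => ?_⟩
          have h2 := hv ((c - 1) * i)
          have h3 : (c - 1) * ((c - 1) * i) = i + ((c - 2) * i) * c := by
            obtain ⟨d, rfl⟩ : ∃ d, c = d + 2 := ⟨c - 2, by omega⟩
            simp only [Nat.add_sub_cancel, show d + 2 - 1 = d + 1 by omega]
            ring
          have h4 : D (f ((c - 1) * ((c - 1) * i))) v := h2
          rw [h3, per_mul hp] at h4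
          exact h4) (by
          obtain ⟨u, hu⟩ := hU
          exact ⟨u, fun i => hu _⟩)
      linarith
  · have hW : ∃ w, ∀ i, D (f i) w := by
      rw [cnt_zero (fun v h => hU ⟨v, h⟩), add_zero] at hUW
      exact cnt_pos.1 hUW
    have h1 := domU D c (by omega) ε hd h0 hw f hp hs hU hW
    linarith

theorem t_ZT : ZT := by
  intro t ht hev V _ D ε hno hex hw
  have hd := fun a b => dig hev hno a b
  have hε : 0 ≤ ε := by
    obtain ⟨y, x, hyx⟩ := hex
    have e1 := hw y x hyx
    have hpt : ∑ v, (ind (D x v) + ind (D v y)) ≤ ∑ _v : V, (1 : ℝ) := by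
      apply Finset.sum_le_sum
      intro v _
      by_cases h1 : D x v
      · by_cases h2 : D v y
        · exfalso
          have h3 := wk_snoc (wk_snoc hyx h1) h2
          have h4 : t - 2 + 1 + 1 = t := by omega
          rw [h4] at h3
          exact hno _ h3
        · simp [ind, h1, h2]
      · have := ind_le (D v y)
        rw [ind_f h1]
        linarith
    rw [Finset.sum_add_distrib, card_sum] at hpt
    unfold cnt at e1
    linarith
  have ht0 : (6 : ℝ) ≤ (t : ℝ) := by exact_mod_cast ht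
  by_cases hC : ∃ x, Wk D (t - 1) x x
  · obtain ⟨x, hx⟩ := hC
    obtain ⟨f, hp, hs⟩ := wk_per (t - 1) (by omega) x hx
    have e1 : t - 1 + 1 = t := by omega
    have e2 : t - 1 - 1 = t - 2 := by omega
    have h1 := caseII D (t - 1) (by omega) ε hε hd (by rw [e1]; exact hno) (by rw [e2]; exact hw) f hp hs
    have e3 : ((t - 1 : ℕ) : ℝ) = (t : ℝ) - 1 := by
      rw [Nat.cast_sub (by omega)]; norm_num
    rw [e3] at h1
    exact h1
  · have e1 : t - 3 + 1 = t - 2 := by omega
    have e2 : t - 3 + 2 = t - 1 := by omega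
    have e3 : t - 3 + 3 = t := by omega
    have h1 := caseI D (t - 3) ε hε hd (by rw [e2]; exact fun x h => hC ⟨x, h⟩) (by rw [e3]; exact hno)
      (by rw [e1]; exact hw) (by rw [e1]; exact hex)
    nlinarith

end Pool.Agent.W52.CF
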